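import Pool.Agent.NBT.StmtsF

/-!
Squad NBT, row EGV: comparison of eigenvalues.
-/

set_option autoImplicit false

open Matrix Filter Topology

namespace Pool.Agent.NBT.H33

open Pool.Agent.PFS Pool.Agent.PFJ Pool.Agent.NBT

theorem half {n : ℕ} {C : Set (Fin n → ℝ)} {Γ : Subgroup (GL (Fin n) ℝ)} (hC : CC C Γ)
    {g : GL (Fin n) ℝ} (hg : g ∈ Γ) {y f : Fin n → ℝ} {M c l : ℝ} (hy : y ∈ closure C)
    (hy0 : y ≠ 0) (hM : M • f - y ∈ closure C) (h1 : act g y = c • y) (h2 : act g f = l • f)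
    (hc : 0 < c) (hl : 0 < l) : c ≤ l := by
  obtain ⟨B, hB, hn⟩ := hC.toPCone.normal
  have key : ∀ N : ℕ, M • (l ^ N • f) - c ^ N • y ∈ closure C := by
    intro N
    induction N with
    | zero => simpa using hM
    | succ N ih =>
      have := hC.act_cl hg ih
      rw [CC.act_sub, CC.act_smul, CC.act_smul, CC.act_smul, h1, h2, smul_smul (l ^ N),
        smul_smul (c ^ N), ← pow_succ, ← pow_succ] at this
      exact this
  by_contra hlt
  push Not at hlt
  have hy1 : 0 < ‖y‖ := norm_pos_iff.2 hy0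
  have hr : 1 < c / l := by rwa [one_lt_div hl]
  obtain ⟨N, hN⟩ := pow_unbounded_of_one_lt (B * (|M| * ‖f‖) / ‖y‖) hr
  have hk := hn (c ^ N • y) (M • (l ^ N • f)) (hC.toPCone.cl_smul hy (by positivity)) (key N)
  rw [norm_smul, norm_smul, norm_smul, Real.norm_eq_abs, Real.norm_eq_abs, Real.norm_eq_abs,
    abs_of_pos (pow_pos hc N), abs_of_pos (pow_pos hl N)] at hk
  rw [div_lt_iff₀ hy1, div_pow, div_mul_eq_mul_div, lt_div_iff₀ (pow_pos hl N)] at hN
  have : B * (|M| * ‖f‖) * l ^ N = B * (|M| * (l ^ N * ‖f‖)) := by ring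
  rw [this] at hN
  linarith

theorem inv_eig {n : ℕ} {g : GL (Fin n) ℝ} {y : Fin n → ℝ} {c : ℝ} (hc : 0 < c)
    (h : act g y = c • y) : act g⁻¹ y = c⁻¹ • y := by
  apply CC.act_injective g
  rw [CC.act_act_inv, CC.act_smul, h, smul_smul, inv_mul_cancel₀ hc.ne', one_smul]

theorem egv : EgvStmt := by
  intro n C Γ hC g hg y f M c l hy hy0 hf hM h1 h2 hc hl
  refine le_antisymm (half hC hg hy hy0 hM h1 h2 hc hl) ?_
  have := half hC (Γ.inv_mem hg) hy hy0 hM (inv_eig hc h1) (inv_eig hl h2) (inv_pos.2 hc)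
    (inv_pos.2 hl)
  exact (inv_le_inv₀ hc hl).1 this

end Pool.Agent.NBT.H33
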